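import Pool.Agent.U153.BlTop

/-!
# Random stirring on the torus: the law of the short cycles at large times

`stirExp J t F` (Pool.Agent.Y998.ST.Defs) is the expectation of `F` under random stirring with rates
`J` at time `t`, started at the identity, `nnRate d L` are the rates `1` for the nearest neighbours
of the torus `(ℤ / L)^d`, and `cycleLen g x` is the number of points in the cycle of `x`.
-/

set_option autoImplicit false

namespace Pool.Agent.Results.MP_6c3d62_pr.BlochLaw

open Finset Equiv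
open Pool.Agent.Y998.ST (stirExp nnRate cycleLen exp_const)

/-- The probability that at time `t` the cycle of `x` has exactly `k` points. -/
noncomputable def lenProb (d L : ℕ) [NeZero L] (t : ℝ) (k : ℕ) (x : Fin d → ZMod L) : ℝ :=
  open Classical in stirExp (nnRate d L) t (fun g => if cycleLen g x = k then 1 else 0)

/-- The probability that at time `t` the cycle of `x` has at most `n` points. -/
noncomputable def shortProb (d L : ℕ) [NeZero L] (t : ℝ) (n : ℕ) (x : Fin d → ZMod L) : ℝ :=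
  open Classical in stirExp (nnRate d L) t (fun g => if cycleLen g x ≤ n then 1 else 0)

/-- The cycle lengths of `g` (fixed points included) in non-increasing order, padded with zeros:
`longest g i` is the `(i + 1)`-st longest cycle length. -/
def longest {V : Type} [Fintype V] [DecidableEq V] (g : Perm V) (i : ℕ) : ℕ :=
  (g.partition.parts.sort (· ≥ ·)).getD i 0

/-- The constant `β(d) = ∑_{k ≥ 1} (4 π k)^(-d/2) = ζ(d/2) / (4 π)^(d/2)`. -/
noncomputable def bloch (d : ℕ) : ℝ := ∑' k : ℕ, (4 * Real.pi * ((k : ℝ) + 1)) ^ (-(d / 2 : ℝ))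

/-- Nearest neighbour random stirring on the torus `(ℤ / L)^d` in any dimension `d ≥ 3`, started at
the identity.  There is `a = a(d) > 0` such that, as `t → ∞`, uniformly in the size `L` of the torus
and in the point `x`:
(1) the law of the number of points in the cycle of `x`, restricted to the lengths up to `n` and
multiplied by `t^(d/2)`, converges in total variation to the measure with the weights
`(4 π k)^(-d/2)`: for every `ε > 0` there are `t₀` and `η > 0` such that the sum over `1 ≤ k ≤ n` of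
`|t^(d/2) P(the cycle of x has k points) - (4 π k)^(-d/2)|` is at most `ε` for all `t ≥ t₀` and all
`n ≥ 1` with `n ≤ η L^d / t^(d/2)` which satisfy `n ≤ exp (t^a)` or `L ≤ exp (t^a)`;
(2) in particular `t^(d/2) P(the cycle of x has at most n points)` is within `ε` of
`β(d) = ζ(d/2) / (4 π)^(d/2)` if moreover `n ≥ n₀(ε)`;
(3) for every `ε > 0` there is `t₀` such that for all `t ≥ t₀` and every `k`, for all large `L`, the
`k` longest cycles contain in the mean at most the fraction `1 - (β(d) - ε) t^(-d/2)` of the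
points. -/
theorem result (d : ℕ) (hd : 3 ≤ d) :
    (∃ a : ℝ, 0 < a ∧ ∀ ε : ℝ, 0 < ε → ∃ (t₀ η : ℝ) (n₀ : ℕ), 1 ≤ t₀ ∧ 0 < η ∧
      ∀ (L : ℕ) [NeZero L] (t : ℝ) (n : ℕ), t₀ ≤ t → 1 ≤ n →
      n * t ^ (d / 2 : ℝ) ≤ η * (L : ℝ) ^ d →
      ((n : ℝ) ≤ Real.exp (t ^ a) ∨ (L : ℝ) ≤ Real.exp (t ^ a)) → ∀ x : Fin d → ZMod L,
      ∑ k ∈ Finset.Icc 1 n,
        |t ^ (d / 2 : ℝ) * lenProb d L t k x - (4 * Real.pi * k) ^ (-(d / 2 : ℝ))| ≤ ε ∧
      (n₀ ≤ n → |t ^ (d / 2 : ℝ) * shortProb d L t n x - bloch d| ≤ ε)) ∧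
    ∀ ε : ℝ, 0 < ε → ∃ t₀ : ℝ, ∀ t : ℝ, t₀ ≤ t → ∀ k : ℕ, ∃ L₀ : ℕ, ∀ (L : ℕ) [NeZero L],
      L₀ ≤ L → ∑ i ∈ Finset.range k, stirExp (nnRate d L) t (fun g =>
        (longest g i : ℝ) / (L : ℝ) ^ d) ≤ 1 - (bloch d - ε) * t ^ (-(d / 2 : ℝ)) := by
  classical
  have hb : bloch d = Pool.Agent.U153.hkc d * Pool.Agent.U153.zt d := Pool.Agent.U153.bloch_eq d
  have hlen : ∀ (L : ℕ) [NeZero L] (t : ℝ) (k : ℕ) (x : Fin d → ZMod L),
      lenProb d L t k x = Pool.Agent.U153.pk t k x := by
    intro L _ t k x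
    unfold lenProb Pool.Agent.U153.pk
    congr 1
    funext g
    rw [Q292.LC.cycleLen_eq]
  have hsh : ∀ (L : ℕ) [NeZero L] (t : ℝ) (n : ℕ) (x : Fin d → ZMod L),
      shortProb d L t n x = Pool.Agent.U153.cl t n x := by
    intro L _ t k x
    unfold shortProb Pool.Agent.U153.cl
    congr 1
    funext g
    rw [Q292.LC.cycleLen_eq]
  have hicc : ∀ (f : ℕ → ℝ) (n : ℕ), ∑ k ∈ Finset.Icc 1 n, f k =
      ∑ j ∈ Finset.range n, f (j + 1) := by
    intro f n
    induction n with
    | zero => simp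
    | succ n ih => rw [Finset.sum_Icc_succ_top (by omega), ih, Finset.sum_range_succ]
  have hcl0 : ∀ {L : ℕ} [NeZero L] {t : ℝ} {x : Fin d → ZMod L},
      Pool.Agent.U153.cl t 0 x = 0 := by
    intro L _ t x
    unfold Pool.Agent.U153.cl
    have e1 : (fun g : Perm (Fin d → ZMod L) => if (Q292.LC.cyc g x).card ≤ 0 then (1 : ℝ) else 0) =
        fun _ => 0 := by
      funext g
      have h1 := Pool.Agent.U153.mc_len_pos g x
      rw [Q292.LC.cycleLen_eq] at h1
      rw [if_neg (by omega)]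
    rw [e1, exp_const]
  refine ⟨?_, ?_⟩
  · obtain ⟨a, ha, h⟩ := Pool.Agent.U153.bl_tv d hd
    refine ⟨a, ha, fun ε hε => ?_⟩
    obtain ⟨t₀, η, ht₀, hη, h1⟩ := h (ε / 2) (by positivity)
    -- the partial sums of the constant
    have hs : Summable (fun k : ℕ => (4 * Real.pi * ((k : ℝ) + 1)) ^ (-(d / 2 : ℝ))) := by
      simp_rw [Pool.Agent.U153.bloch_term]
      exact (Pool.Agent.U153.tl_summable d hd).mul_left _
    obtain ⟨n₀, hn₀⟩ := Filter.eventually_atTop.1
      ((hs.hasSum.tendsto_sum_nat).eventually (Metric.ball_mem_nhds _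
        (by positivity : 0 < ε / 2)))
    refine ⟨t₀, η, n₀, ht₀, hη, fun L _ t n ht hn hnt hcase x => ?_⟩
    have h2 := h1 L t n ht hn hnt hcase x
    refine ⟨?_, fun hnn => ?_⟩
    · refine le_trans (le_of_eq ?_) (h2.trans (by linarith))
      rw [hicc]
      refine Finset.sum_congr rfl fun j _ => ?_
      rw [hlen, ← Pool.Agent.U153.bloch_term]
      push_cast
      rfl
    · have h3 := hn₀ n hnn
      rw [Real.dist_eq] at h3
      have h4 : ∑ j ∈ Finset.range n, Pool.Agent.U153.pk t (j + 1) x =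
          Pool.Agent.U153.cl t n x := by
        have e1 : ∑ j ∈ Finset.range n, Pool.Agent.U153.pk t (j + 1) x =
            Pool.Agent.U153.cl t n x - Pool.Agent.U153.cl t 0 x := by
          rw [← Finset.sum_range_sub (fun j => Pool.Agent.U153.cl t j x)]
          exact Finset.sum_congr rfl fun j _ => Pool.Agent.U153.pk_eq_cl t j x
        rw [e1, hcl0, sub_zero]
      have h5 : |∑ j ∈ Finset.range n, (t ^ (d / 2 : ℝ) * Pool.Agent.U153.pk t (j + 1) x -
          Pool.Agent.U153.hkc d * ((j : ℝ) + 1) ^ (-(d / 2 : ℝ)))| ≤ ε / 2 :=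
        (Finset.abs_sum_le_sum_abs _ _).trans h2
      rw [Finset.sum_sub_distrib, ← Finset.mul_sum, h4] at h5
      simp_rw [Pool.Agent.U153.bloch_term] at h3
      have h6 : ∑' k : ℕ, Pool.Agent.U153.hkc d * ((k : ℝ) + 1) ^ (-(d / 2 : ℝ)) = bloch d := by
        unfold bloch
        exact tsum_congr fun k => (Pool.Agent.U153.bloch_term d k).symm
      rw [h6] at h3
      rw [hsh]
      rw [abs_le] at h5 ⊢
      rw [abs_lt] at h3
      constructor <;> linarith [h3.1, h3.2, h5.1, h5.2]
  · intro ε hε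
    rw [hb]
    exact Pool.Agent.U153.bl_mass d hd ε hε

end Pool.Agent.Results.MP_6c3d62_pr.BlochLaw
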