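import Pool.Agent.U153.McTop

/-!
# Random stirring on the torus: macroscopic cycles at polylogarithmic times

`stirExp J t F` (Pool.Agent.Y998.ST.Defs) is the expectation of `F` under random stirring with rates
`J` at time `t`, started at the identity, `nnRate d L` are the rates `1` for the nearest neighbours
of the torus `(ℤ / L)^d`, and `cycleLen g x` is the number of points in the cycle of `x`.
-/

set_option autoImplicit false

namespace Pool.Agent.Results.MP_6c3d62_pr.MacroscopicPolylog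

open Finset Equiv
open Pool.Agent.Y998.ST (stirExp nnRate cycleLen)

/-- The cycle lengths of `g` (fixed points included) in non-increasing order, padded with zeros:
`longest g i` is the `(i + 1)`-st longest cycle length. -/
def longest {V : Type} [Fintype V] [DecidableEq V] (g : Perm V) (i : ℕ) : ℕ :=
  (g.partition.parts.sort (· ≥ ·)).getD i 0

/-- The number of cycles of `g` (fixed points included) with more than `y` points. -/
noncomputable def cyclesAbove {V : Type} [Fintype V] [DecidableEq V] (g : Perm V) (y : ℝ) : ℕ :=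
  open Classical in Multiset.card (Multiset.filter (fun k : ℕ => y < (k : ℝ)) g.partition.parts)

/-- Nearest neighbour random stirring on the torus `(ℤ / L)^d` in any dimension `d ≥ 3`, started at
the identity.  There is an exponent `m = m(d)` such that, uniformly over all times
`t ≥ (log L)^m`, as `L → ∞`:
(1) the number of points in the cycle of `x`, divided by `L^d`, is asymptotically uniform on
`[0, 1]`, uniformly in `x`;
(2) the mean number of cycles with more than `a L^d` points tends to `log (1 / a)`, for every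
`0 < a ≤ 1`, and the probability that the longest cycle has more than `a L^d` points tends to
`log (1 / a)`, for every `1 / 2 ≤ a ≤ 1`;
(3) for every `i` and `ε > 0` there is `δ > 0` such that the `(i + 1)`-st longest cycle has at least
`δ L^d` points with probability at least `1 - ε`;
(4) for every `k` the `k` longest cycles contain in the mean at least the fraction
`1 - 2^(-k) - o(1)` of all the points, so the macroscopic cycles carry asymptotically all of them. -/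
theorem result (d : ℕ) (hd : 3 ≤ d) : ∃ m : ℕ, ∀ ε : ℝ, 0 < ε →
    (∃ L₀ : ℕ, ∀ (L : ℕ) [NeZero L], L₀ ≤ L → ∀ t : ℝ, (Real.log L) ^ m ≤ t →
      ∀ (x : Fin d → ZMod L) (s : ℝ), 0 ≤ s → s ≤ 1 →
      |stirExp (nnRate d L) t (fun g => if (cycleLen g x : ℝ) ≤ s * (L : ℝ) ^ d then 1 else 0) -
        s| ≤ ε) ∧
    (∀ a : ℝ, 0 < a → a ≤ 1 → ∃ L₀ : ℕ, ∀ (L : ℕ) [NeZero L], L₀ ≤ L → ∀ t : ℝ,
      (Real.log L) ^ m ≤ t →
      |stirExp (nnRate d L) t (fun g => (cyclesAbove g (a * (L : ℝ) ^ d) : ℝ)) -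
        Real.log (1 / a)| ≤ ε ∧
      (1 / 2 ≤ a → |stirExp (nnRate d L) t (fun g =>
        if a * (L : ℝ) ^ d < (longest g 0 : ℝ) then 1 else 0) - Real.log (1 / a)| ≤ ε)) ∧
    (∀ i : ℕ, ∃ δ : ℝ, 0 < δ ∧ ∃ L₀ : ℕ, ∀ (L : ℕ) [NeZero L], L₀ ≤ L → ∀ t : ℝ,
      (Real.log L) ^ m ≤ t →
      1 - ε ≤ stirExp (nnRate d L) t (fun g =>
        if δ * (L : ℝ) ^ d ≤ (longest g i : ℝ) then 1 else 0)) ∧
    (∀ k : ℕ, ∃ L₀ : ℕ, ∀ (L : ℕ) [NeZero L], L₀ ≤ L → ∀ t : ℝ, (Real.log L) ^ m ≤ t →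
      1 - (1 / 2 : ℝ) ^ k - ε ≤ ∑ i ∈ Finset.range k, stirExp (nnRate d L) t (fun g =>
        (longest g i : ℝ) / (L : ℝ) ^ d)) := by
  obtain ⟨m₁, h₁⟩ := Pool.Agent.U153.mc_law d hd
  obtain ⟨m₂, h₂⟩ := Pool.Agent.U153.mc_number d hd
  obtain ⟨m₃, h₃⟩ := Pool.Agent.U153.mc_max d hd
  obtain ⟨m₄, h₄⟩ := Pool.Agent.U153.mc_macro d hd
  obtain ⟨m₅, h₅⟩ := Pool.Agent.U153.mc_mass d hd
  have hlog : ∀ L : ℕ, ⌈Real.exp 1⌉₊ + 1 ≤ L → 1 ≤ Real.log L := by
    intro L hL
    have h0 : Real.exp 1 ≤ L := (Nat.le_ceil _).trans (by exact_mod_cast (by omega))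
    have hL0 : (0 : ℝ) < L := lt_of_lt_of_le (Real.exp_pos 1) h0
    rw [Real.le_log_iff_exp_le hL0]
    exact h0
  obtain ⟨m, hm⟩ : ∃ m : ℕ, m = m₁ + m₂ + m₃ + m₄ + m₅ := ⟨_, rfl⟩
  have hle : ∀ (L : ℕ), ⌈Real.exp 1⌉₊ + 1 ≤ L → ∀ t : ℝ, (Real.log L) ^ m ≤ t → ∀ k : ℕ, k ≤ m →
      (Real.log L) ^ k ≤ t := fun L hL t ht k hk =>
    (pow_le_pow_right₀ (hlog L hL) hk).trans ht
  refine ⟨m, fun ε hε => ⟨?_, ?_, ?_, ?_⟩⟩
  · obtain ⟨L₀, hL₀⟩ := h₁ ε hε
    refine ⟨max L₀ (⌈Real.exp 1⌉₊ + 1), fun L _ hL t ht x s hs0 hs1 => ?_⟩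
    have hLb := (le_max_right _ _).trans hL
    have h := hL₀ L ((le_max_left _ _).trans hL) t (hle L hLb t ht m₁ (by omega)) x s hs0 hs1
    have e1 : Pool.Agent.U153.cdf d L t x s = stirExp (nnRate d L) t
        (fun g => if (cycleLen g x : ℝ) ≤ s * (L : ℝ) ^ d then 1 else 0) := by
      unfold Pool.Agent.U153.cdf
      congr 1
      funext g
      have hV : (0 : ℝ) < (L : ℝ) ^ d := Pool.Agent.U153.lc_vol_pos
      have h2 : Pool.Agent.R517.PDS.dens g Finset.univ x ≤ s ↔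
          (cycleLen g x : ℝ) ≤ s * (L : ℝ) ^ d := by
        rw [Pool.Agent.U153.mc_len_dens, Pool.Agent.U153.lc_vol, div_le_iff₀ hV]
      by_cases h3 : (cycleLen g x : ℝ) ≤ s * (L : ℝ) ^ d
      · rw [if_pos h3, if_pos (h2.2 h3)]
      · rw [if_neg h3, if_neg (fun h => h3 (h2.1 h))]
    rwa [e1] at h
  · intro a ha0 ha1
    obtain ⟨L₀, hL₀⟩ := h₂ a ha0 ha1 ε hε
    rcases le_or_gt (1 / 2) a with ha | ha
    · obtain ⟨L₁, hL₁⟩ := h₃ a ha ha1 ε hε
      refine ⟨max (max L₀ L₁) (⌈Real.exp 1⌉₊ + 1), fun L _ hL t ht => ?_⟩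
      have hLb := (le_max_right _ _).trans hL
      refine ⟨hL₀ L (((le_max_left _ _).trans (le_max_left _ _)).trans hL) t
        (hle L hLb t ht m₂ (by omega)), fun _ => ?_⟩
      exact hL₁ L (((le_max_right _ _).trans (le_max_left _ _)).trans hL) t
        (hle L hLb t ht m₃ (by omega))
    · refine ⟨max L₀ (⌈Real.exp 1⌉₊ + 1), fun L _ hL t ht => ?_⟩
      have hLb := (le_max_right _ _).trans hL
      exact ⟨hL₀ L ((le_max_left _ _).trans hL) t (hle L hLb t ht m₂ (by omega)),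
        fun h => absurd h (not_le.2 ha)⟩
  · intro i
    obtain ⟨δ, hδ, L₀, hL₀⟩ := h₄ i ε hε
    refine ⟨δ, hδ, max L₀ (⌈Real.exp 1⌉₊ + 1), fun L _ hL t ht => ?_⟩
    have hLb := (le_max_right _ _).trans hL
    exact hL₀ L ((le_max_left _ _).trans hL) t (hle L hLb t ht m₄ (by omega))
  · intro k
    obtain ⟨L₀, hL₀⟩ := h₅ k ε hε
    refine ⟨max L₀ (⌈Real.exp 1⌉₊ + 1), fun L _ hL t ht => ?_⟩
    have hLb := (le_max_right _ _).trans hL
    exact hL₀ L ((le_max_left _ _).trans hL) t (hle L hLb t ht m₅ (by omega))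

end Pool.Agent.Results.MP_6c3d62_pr.MacroscopicPolylog
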