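import Pool.Agent.U153.PlTail2

/-!
# Random stirring on the two-dimensional torus: the tail of the cycle length of a point

`stirExp J t F` (Pool.Agent.Y998.ST.Defs) is the expectation of `F` under random stirring with rates
`J` at time `t`, started at the identity, `nnRate 2 L` are the rates `1` for the nearest neighbours
of the torus `(ℤ / L)^2`, and `cycleLen g x` is the number of points in the cycle of `x`.
-/

set_option autoImplicit false

namespace Pool.Agent.Results.MP_6c3d62_pr.PlanarCycleTail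

open Finset Equiv
open Pool.Agent.Y998.ST (stirExp nnRate cycleLen)

/-- The probability that at time `t` the cycle of the point `x` of the two-dimensional torus of
side `L` has at most `y` points. -/
noncomputable def tailProb (L : ℕ) [NeZero L] (t : ℝ) (y : ℝ) (x : Fin 2 → ZMod L) : ℝ :=
  open Classical in stirExp (nnRate 2 L) t (fun g => if (cycleLen g x : ℝ) ≤ y then 1 else 0)

/-- Nearest neighbour random stirring on the two-dimensional torus `(ℤ / L)^2`, started at the
identity.  There are constants `C`, `c > 0` and `M` such that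
(1) for all `L ≥ 3`, all times `2 ≤ t ≤ L^2`, all `n ≥ 1` and all points `x`, the probability that
the cycle of `x` has at most `n` points is at least `c / t` and at most
`C (log (n t))^M (1 / t + n / L^2)`;
(2) in particular cycles are long, uniformly in the size of the torus: for every `ε > 0` there are
`a > 0` and `t₀` such that for all `t ≥ t₀` and all `L ≥ exp (t^a)` the cycle of `x` has more than
`exp (t^a)` points with probability at least `1 - t^(-1 + ε)`. -/
theorem result : (∃ (C c : ℝ) (M : ℕ), 0 < C ∧ 0 < c ∧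
    ∀ (L : ℕ) [NeZero L], 3 ≤ L → ∀ t : ℝ, 2 ≤ t → t ≤ (L : ℝ) ^ 2 → ∀ n : ℕ, 1 ≤ n →
      ∀ x : Fin 2 → ZMod L, c / t ≤ tailProb L t n x ∧
        tailProb L t n x ≤ C * Real.log (n * t) ^ M * (1 / t + n / (L : ℝ) ^ 2)) ∧
    ∀ ε : ℝ, 0 < ε → ∃ a t₀ : ℝ, 0 < a ∧ ∀ t : ℝ, t₀ ≤ t → ∀ (L : ℕ) [NeZero L],
      Real.exp (t ^ a) ≤ L → ∀ x : Fin 2 → ZMod L,
      tailProb L t (Real.exp (t ^ a)) x ≤ t ^ (-1 + ε) := by
  classical
  obtain ⟨C, M, hC, hup⟩ := Pool.Agent.U153.pl_tail
  obtain ⟨c, hc, hlow⟩ := Q292.LC.tail_low Q292.LC.all_hkl 2 (by norm_num)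
  have hcast : ∀ (L : ℕ) [NeZero L] (t : ℝ) (n : ℕ) (x : Fin 2 → ZMod L),
      tailProb L t n x = stirExp (nnRate 2 L) t (fun g => if cycleLen g x ≤ n then (1 : ℝ) else 0) :=
    by
    intro L _ t n x
    unfold tailProb
    congr 1
    funext g
    by_cases h : cycleLen g x ≤ n
    · rw [if_pos h, if_pos (by exact_mod_cast h)]
    · rw [if_neg h, if_neg (by exact_mod_cast h)]
  have hup' : ∀ (L : ℕ) [NeZero L] (t : ℝ) (n : ℕ), 2 ≤ t → 1 ≤ n → t ≤ (L : ℝ) ^ 2 →
      ∀ x : Fin 2 → ZMod L,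
      tailProb L t n x ≤ C * Real.log (n * t) ^ M * (1 / t + n / (L : ℝ) ^ 2) := by
    intro L _ t n ht hn htL x
    rw [hcast]
    simp only [Q292.LC.cycleLen_eq]
    exact hup t L n ht hn htL x
  refine ⟨⟨C, c, M, hC, hc, ?_⟩, ?_⟩
  · intro L _ hL t ht htL n hn x
    refine ⟨?_, hup' L t n ht hn htL x⟩
    have h := hlow L hL t (by linarith) (by
      have : 0 ≤ (L : ℝ) ^ 2 := by positivity
      linarith) n hn x
    rw [hcast]
    refine le_trans (le_of_eq ?_) h
    have e1 : (-(((2 : ℕ) : ℝ) / 2) : ℝ) = -1 := by norm_num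
    rw [e1, Real.rpow_neg_one, div_eq_mul_inv]
  · intro ε hε
    obtain ⟨a, ha⟩ : ∃ a : ℝ, a = ε / (2 * (M + 1)) := ⟨_, rfl⟩
    have hM0 : (0 : ℝ) ≤ M := Nat.cast_nonneg M
    have ha0 : 0 < a := by rw [ha]; positivity
    have haM : a * M ≤ ε / 2 := by
      rw [ha, div_mul_eq_mul_div, div_le_div_iff₀ (by positivity) (by norm_num)]
      nlinarith
    obtain ⟨A, hA⟩ : ∃ A : ℝ, A = 2 * C * (1 + 1 / a) ^ M := ⟨_, rfl⟩
    have e1 : ∀ᶠ t : ℝ in Filter.atTop, Real.log t ≤ t ^ a := by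
      have h := (isLittleO_log_rpow_atTop ha0).def one_pos
      filter_upwards [h, Filter.eventually_ge_atTop (1 : ℝ)] with t ht ht1
      rw [Real.norm_eq_abs, Real.norm_eq_abs, abs_of_nonneg (Real.log_nonneg ht1),
        abs_of_nonneg (by positivity), one_mul] at ht
      exact ht
    have e2 : ∀ᶠ t : ℝ in Filter.atTop, A ≤ t ^ (ε / 2) :=
      (tendsto_rpow_atTop (by positivity : 0 < ε / 2)).eventually_ge_atTop A
    obtain ⟨t₀, ht₀⟩ := Filter.eventually_atTop.1 (e1.and (e2.and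
      (Filter.eventually_ge_atTop (2 : ℝ))))
    refine ⟨a, t₀, ha0, fun t ht L _ hL x => ?_⟩
    obtain ⟨h1, h2, h3⟩ := ht₀ t ht
    have ht0 : 0 < t := by linarith
    obtain ⟨E, hE⟩ : ∃ E : ℝ, E = Real.exp (t ^ a) := ⟨_, rfl⟩
    rw [← hE] at hL ⊢
    have hEt : t ≤ E := by
      rw [hE, ← Real.log_le_iff_le_exp ht0]
      exact h1
    have hE1 : 1 ≤ E := by linarith
    obtain ⟨n, hn⟩ : ∃ n : ℕ, n = ⌊E⌋₊ := ⟨_, rfl⟩
    have hnE : (n : ℝ) ≤ E := by rw [hn]; exact Nat.floor_le (by linarith)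
    have hn1 : 1 ≤ n := by
      rw [hn]
      exact Nat.le_floor (by exact_mod_cast hE1)
    have hn1r : (1 : ℝ) ≤ n := by exact_mod_cast hn1
    have hn0 : (0 : ℝ) < n := by linarith
    have hEL : E ^ 2 ≤ (L : ℝ) ^ 2 := pow_le_pow_left₀ (by linarith) hL 2
    have hntL : n * t ≤ (L : ℝ) ^ 2 := by
      refine le_trans ?_ hEL
      rw [sq]
      exact mul_le_mul hnE hEt ht0.le (by linarith)
    have htL : t ≤ (L : ℝ) ^ 2 := (le_mul_of_one_le_left ht0.le hn1r).trans hntL
    have hL2 : (0 : ℝ) < (L : ℝ) ^ 2 := by linarith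
    have hkey := hup' L t n h3 hn1 htL x
    have hEn : tailProb L t E x = tailProb L t n x := by
      unfold tailProb
      congr 1
      funext g
      have h4 : (cycleLen g x : ℝ) ≤ E ↔ (cycleLen g x : ℝ) ≤ n := by
        rw [Nat.cast_le, hn, Nat.le_floor_iff (by linarith)]
      by_cases h : (cycleLen g x : ℝ) ≤ E
      · rw [if_pos h, if_pos (h4.1 h)]
      · rw [if_neg h, if_neg (fun h' => h (h4.2 h'))]
    rw [hEn]
    refine hkey.trans ?_
    have h5 : 1 / t + n / (L : ℝ) ^ 2 ≤ 2 * (1 / t) := by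
      have : (n : ℝ) / (L : ℝ) ^ 2 ≤ 1 / t := by
        rw [div_le_div_iff₀ hL2 ht0, one_mul]
        exact hntL
      linarith
    have h6 : Real.log (n * t) ≤ (1 + 1 / a) * t ^ a := by
      rw [Real.log_mul hn0.ne' ht0.ne']
      have h7 : Real.log n ≤ t ^ a := by
        rw [Real.log_le_iff_le_exp hn0, ← hE]
        exact hnE
      have h8 : Real.log t ≤ t ^ a / a := Real.log_le_rpow_div ht0.le ha0
      calc Real.log n + Real.log t ≤ t ^ a + t ^ a / a := add_le_add h7 h8
        _ = _ := by ring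
    have h9 : 0 ≤ Real.log (n * t) := Real.log_nonneg (by nlinarith)
    have h10 : Real.log (n * t) ^ M ≤ (1 + 1 / a) ^ M * t ^ (ε / 2) := by
      calc Real.log (n * t) ^ M ≤ ((1 + 1 / a) * t ^ a) ^ M := pow_le_pow_left₀ h9 h6 M
        _ = (1 + 1 / a) ^ M * t ^ (a * M) := by
            rw [mul_pow, ← Real.rpow_natCast (t ^ a) M, ← Real.rpow_mul ht0.le]
        _ ≤ (1 + 1 / a) ^ M * t ^ (ε / 2) := by
            refine mul_le_mul_of_nonneg_left ?_ (by positivity)
            exact Real.rpow_le_rpow_of_exponent_le (by linarith) haM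
    have h11 : 0 < t ^ (ε / 2) := Real.rpow_pos_of_pos ht0 _
    calc C * Real.log (n * t) ^ M * (1 / t + n / (L : ℝ) ^ 2)
        ≤ C * ((1 + 1 / a) ^ M * t ^ (ε / 2)) * (2 * (1 / t)) := by gcongr
      _ = A * t ^ (ε / 2) * t⁻¹ := by rw [hA]; ring
      _ ≤ t ^ (ε / 2) * t ^ (ε / 2) * t⁻¹ := by gcongr
      _ = t ^ (-1 + ε) := by
          rw [← Real.rpow_neg_one t, ← Real.rpow_add ht0, ← Real.rpow_add ht0]
          congr 1
          ring

end Pool.Agent.Results.MP_6c3d62_pr.PlanarCycleTail
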