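import Pool.Agent.U153.PlPd

/-!
# Random stirring on the two-dimensional torus: the Poisson-Dirichlet law at polylogarithmic times

`stirExp J t F` (Pool.Agent.Y998.ST.Defs) is the expectation of `F` under random stirring with rates
`J` at time `t`, started at the identity, `nnRate 2 L` are the rates `1` for the nearest neighbours
of the torus `(ℤ / L)^2`.  `setFrac S g i`, `cycleFrac g i` and `pdMean f` are those of the result
`LocalPoissonDirichlet` of the starting library (problem MP_b817cf_pr): the `i`-th largest fraction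
of the points of `S` in one cycle of `g`, the `i`-th longest cycle length divided by the number of
points, and the mean of `f` for the Poisson-Dirichlet(1) sequence, that is for the non-increasing
rearrangement of `U₁, (1 - U₁) U₂, (1 - U₁) (1 - U₂) U₃, ...` with independent uniform `U_i`.
-/

set_option autoImplicit false

namespace Pool.Agent.Results.MP_6c3d62_pr.PlanarPoissonDirichlet

open Finset Equiv
open Pool.Agent.Y998.ST (stirExp nnRate)
open Pool.Agent.Results.MP_b817cf_pr.LocalPoissonDirichlet (cycleFrac setFrac pdMean)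

open Classical in
/-- Nearest neighbour random stirring (the interchange process) on the two-dimensional torus
`(ℤ / L)^2`, started at the identity.  There is an exponent `m` such that, uniformly over all times
`t ≥ (log L)^m`:
(1) for every bounded continuous `f` of the first `k` values and every `ε > 0` there are `N` and
`L₀` such that for all `L ≥ L₀` the mean of `f` of the ordered cycle lengths divided by `L ^ 2` is
within `ε` of the Poisson-Dirichlet(1) mean; and so is, for every set `S` of at least `N` points of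
the torus, the mean of `f` of the ordered fractions of `S` in the cycles;
(2) for every `K ≥ 1`, any `K` distinct points of the torus, however far apart, are all in one cycle
with probability `1 / K + o(1)` as `L → ∞`. -/
theorem result : ∃ m : ℕ,
    (∀ (k : ℕ) (f : (Fin k → ℝ) → ℝ), Continuous f → (∃ C, ∀ u, |f u| ≤ C) → ∀ ε : ℝ, 0 < ε →
      ∃ N L₀ : ℕ, ∀ (L : ℕ) [NeZero L], L₀ ≤ L → ∀ t : ℝ, (Real.log L) ^ m ≤ t →
      |stirExp (nnRate 2 L) t (fun g => f (fun i : Fin k => cycleFrac g i)) - pdMean f| ≤ ε ∧
      ∀ S : Finset (Fin 2 → ZMod L), N ≤ S.card →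
        |stirExp (nnRate 2 L) t (fun g => f (fun i : Fin k => setFrac S g i)) - pdMean f| ≤ ε) ∧
    ∀ K : ℕ, 1 ≤ K → ∀ ε : ℝ, 0 < ε → ∃ L₀ : ℕ, ∀ (L : ℕ) [NeZero L], L₀ ≤ L →
      ∀ t : ℝ, (Real.log L) ^ m ≤ t → ∀ b : Fin K → Fin 2 → ZMod L, Function.Injective b →
      |stirExp (nnRate 2 L) t (fun g => if ∀ i j, g.SameCycle (b i) (b j) then 1 else 0) -
        1 / K| ≤ ε := by
  obtain ⟨m, hm⟩ := Pool.Agent.U153.pl_dev_stir
  refine ⟨m, ?_, ?_⟩
  · intro k f hf hb ε hε
    obtain ⟨N, L₁, hL₁⟩ := Pool.Agent.U153.gen_sets 2 le_rfl m hm k f hf hb ε hε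
    obtain ⟨L₂, hL₂⟩ := Pool.Agent.U153.gen_pd 2 le_rfl m hm k f hf hb ε hε
    refine ⟨N, max L₁ L₂, fun L _ hL t ht => ?_⟩
    exact ⟨hL₂ L ((le_max_right _ _).trans hL) t ht,
      fun S hS => hL₁ L ((le_max_left _ _).trans hL) t ht S hS⟩
  · intro K hK ε hε
    exact Pool.Agent.U153.gen_kpt 2 le_rfl m hm K hK ε hε

end Pool.Agent.Results.MP_6c3d62_pr.PlanarPoissonDirichlet
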